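import Mathlib

/-! Dilworth's theorem for finite subsets of a partial order. -/

namespace Pool.Agent.H302UC

variable {β : Type*} [PartialOrder β] [DecidableEq β]

/-- Dilworth's theorem: if all antichains of `s` have at most `w` elements, then `s` is covered by
`w` chains. -/
theorem dilworth (s : Finset β) : ∀ w : ℕ,
    (∀ t ⊆ s, IsAntichain (· ≤ ·) (t : Set β) → t.card ≤ w) →
    ∃ c : β → ℕ, (∀ x ∈ s, c x < w) ∧ ∀ x ∈ s, ∀ y ∈ s, c x = c y → x ≤ y ∨ y ≤ x := by
  classical
  induction s using Finset.strongInduction with
  | H s ih =>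
    intro w hw
    rcases s.eq_empty_or_nonempty with rfl | hs
    · exact ⟨fun _ => 0, by simp, by simp⟩
    obtain ⟨a, has, hamax⟩ := s.exists_maximal hs
    set s' := s.erase a with hs'
    have hss : s' ⊂ s := Finset.erase_ssubset has
    -- the width of `s'`
    set AC : Finset (Finset β) := s'.powerset.filter (fun t => IsAntichain (· ≤ ·) (t : Set β))
      with hAC
    have hACne : AC.Nonempty := ⟨∅, by simp [hAC]⟩
    obtain ⟨t₀, ht₀, ht₀max⟩ := AC.exists_max_image Finset.card hACne
    set k := t₀.card with hk
    have hmemAC : ∀ t, t ∈ AC ↔ t ⊆ s' ∧ IsAntichain (· ≤ ·) (t : Set β) := by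
      intro t; simp [hAC]
    have hkw : ∀ t ⊆ s', IsAntichain (· ≤ ·) (t : Set β) → t.card ≤ k := fun t h1 h2 =>
      ht₀max t ((hmemAC t).2 ⟨h1, h2⟩)
    obtain ⟨c, hc, hcc⟩ := ih s' hss k hkw
    have ht₀' := (hmemAC t₀).1 ht₀
    -- an antichain of size `k` meets all colours
    have hmeet : ∀ t ⊆ s', IsAntichain (· ≤ ·) (t : Set β) → t.card = k → ∀ i < k,
        ∃ x ∈ t, c x = i := by
      intro t h1 h2 h3 i hi
      have hinj : Set.InjOn c (t : Set β) := by
        intro x hx y hy hxy
        by_contra hne
        rcases hcc x (h1 hx) y (h1 hy) hxy with h | h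
        · exact h2 hx hy hne h
        · exact h2 hy hx (Ne.symm hne) h
      have hsub : t.image c ⊆ Finset.range k := by
        intro j hj
        obtain ⟨x, hx, rfl⟩ := Finset.mem_image.1 hj
        exact Finset.mem_range.2 (hc x (h1 hx))
      have heq : t.image c = Finset.range k := Finset.eq_of_subset_of_card_le hsub (by
        rw [Finset.card_image_of_injOn hinj, h3, Finset.card_range])
      have : i ∈ t.image c := by rw [heq]; exact Finset.mem_range.2 hi
      obtain ⟨x, hx, rfl⟩ := Finset.mem_image.1 this
      exact ⟨x, hx, rfl⟩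
    -- the elements in maximum antichains
    let Q : ℕ → Finset β := fun i => s'.filter (fun x => c x = i ∧
      ∃ t ∈ AC, t.card = k ∧ x ∈ t)
    have hQne : ∀ i < k, (Q i).Nonempty := by
      intro i hi
      obtain ⟨x, hx, hxi⟩ := hmeet t₀ ht₀'.1 ht₀'.2 rfl i hi
      exact ⟨x, Finset.mem_filter.2 ⟨ht₀'.1 hx, hxi, t₀, ht₀, rfl, hx⟩⟩
    have hX : ∀ i : ℕ, ∃ x, i < k → x ∈ Q i ∧ ∀ y ∈ Q i, y ≤ x := by
      intro i
      by_cases hi : i < k
      · obtain ⟨x, hx, hxm⟩ := (Q i).exists_maximal (hQne i hi)
        refine ⟨x, fun _ => ⟨hx, fun y hy => ?_⟩⟩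
        have hx1 := Finset.mem_filter.1 hx
        have hy1 := Finset.mem_filter.1 hy
        rcases hcc x hx1.1 y hy1.1 (hx1.2.1.trans hy1.2.1.symm) with h | h
        · exact hxm hy h
        · exact h
      · exact ⟨a, fun h => absurd h hi⟩
    choose X hX using hX
    have hXs : ∀ i, i < k → X i ∈ s' := fun i hi => (Finset.mem_filter.1 (hX i hi).1).1
    have hXc : ∀ i, i < k → c (X i) = i := fun i hi => (Finset.mem_filter.1 (hX i hi).1).2.1
    have hXanti : ∀ i < k, ∀ j < k, i ≠ j → ¬ X j ≤ X i := by
      intro i hi j hj hij hle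
      obtain ⟨t, ht, htk, hit⟩ := (Finset.mem_filter.1 (hX i hi).1).2.2
      have ht' := (hmemAC t).1 ht
      obtain ⟨y, hy, hyj⟩ := hmeet t ht'.1 ht'.2 htk j hj
      have hyQ : y ∈ Q j := Finset.mem_filter.2 ⟨ht'.1 hy, hyj, t, ht, htk, hy⟩
      have h1 : y ≤ X i := ((hX j hj).2 y hyQ).trans hle
      have hne : y ≠ X i := by
        rintro rfl
        exact hij (by rw [← hXc i hi, hyj])
      exact ht'.2 hy hit hne h1
    by_cases hcomp : ∃ i < k, X i ≤ a
    · obtain ⟨i, hi, hia⟩ := hcomp
      -- remove a chain
      set r := s.filter (fun z => ¬ (z = a ∨ (c z = i ∧ z ≤ X i))) with hr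
      have hrs : r ⊂ s := by
        refine Finset.filter_ssubset.2 ⟨a, has, by simp⟩
      have hrs' : r ⊆ s' := by
        intro z hz
        have hz' := Finset.mem_filter.1 hz
        refine Finset.mem_erase.2 ⟨fun h => hz'.2 (Or.inl h), hz'.1⟩
      have hk1 : 1 ≤ k := by omega
      have hrw : ∀ t ⊆ r, IsAntichain (· ≤ ·) (t : Set β) → t.card ≤ k - 1 := by
        intro t h1 h2
        have h3 : t.card ≤ k := hkw t (h1.trans hrs') h2
        by_contra hcon
        have h4 : t.card = k := by omega
        obtain ⟨y, hy, hyi⟩ := hmeet t (h1.trans hrs') h2 h4 i hi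
        have hyQ : y ∈ Q i := Finset.mem_filter.2 ⟨hrs' (h1 hy), hyi, t,
          (hmemAC t).2 ⟨h1.trans hrs', h2⟩, h4, hy⟩
        have := (Finset.mem_filter.1 (h1 hy)).2
        exact this (Or.inr ⟨hyi, (hX i hi).2 y hyQ⟩)
      obtain ⟨d, hd, hdd⟩ := ih r hrs (k - 1) hrw
      have hkw' : k ≤ w := hw t₀ (ht₀'.1.trans hss.subset) ht₀'.2
      refine ⟨fun z => if z ∈ r then d z else k - 1, ?_, ?_⟩
      · intro x hx
        by_cases hxr : x ∈ r
        · simp only [hxr, if_true]
          have := hd x hxr
          omega
        · simp only [hxr, if_false]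
          omega
      · intro x hx y hy hxy
        by_cases hxr : x ∈ r <;> by_cases hyr : y ∈ r
        · simp only [hxr, hyr, if_true] at hxy
          exact hdd x hxr y hyr hxy
        · simp only [hxr, hyr, if_true, if_false] at hxy
          have := hd x hxr
          omega
        · simp only [hxr, hyr, if_true, if_false] at hxy
          have := hd y hyr
          omega
        · have hx2 : x = a ∨ (c x = i ∧ x ≤ X i) := by
            by_contra h; exact hxr (Finset.mem_filter.2 ⟨hx, h⟩)
          have hy2 : y = a ∨ (c y = i ∧ y ≤ X i) := by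
            by_contra h; exact hyr (Finset.mem_filter.2 ⟨hy, h⟩)
          rcases hx2 with rfl | ⟨hx3, hx4⟩
          · rcases hy2 with rfl | ⟨hy3, hy4⟩
            · exact Or.inl le_rfl
            · exact Or.inr (hy4.trans hia)
          · rcases hy2 with rfl | ⟨hy3, hy4⟩
            · exact Or.inl (hx4.trans hia)
            · by_cases hxa : x = a
              · subst hxa; exact Or.inr (hy4.trans hia)
              by_cases hya : y = a
              · subst hya; exact Or.inl (hx4.trans hia)
              exact hcc x (Finset.mem_erase.2 ⟨hxa, hx⟩) y (Finset.mem_erase.2 ⟨hya, hy⟩)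
                (hx3.trans hy3.symm)
    · push Not at hcomp
      -- `a` together with the `X i` is an antichain
      set t := insert a ((Finset.range k).image X) with ht
      have hainot : a ∉ (Finset.range k).image X := by
        intro h
        obtain ⟨i, hi, hia⟩ := Finset.mem_image.1 h
        have := hXs i (Finset.mem_range.1 hi)
        rw [hia] at this
        exact (Finset.mem_erase.1 this).1 rfl
      have hXinj : Set.InjOn X (Finset.range k : Set ℕ) := by
        intro i hi j hj hij
        have h1 := hXc i (Finset.mem_range.1 hi)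
        have h2 := hXc j (Finset.mem_range.1 hj)
        rw [← h1, ← h2, hij]
      have htcard : t.card = k + 1 := by
        rw [ht, Finset.card_insert_of_notMem hainot, Finset.card_image_of_injOn hXinj,
          Finset.card_range]
      have hts : t ⊆ s := by
        intro z hz
        rcases Finset.mem_insert.1 hz with rfl | hz
        · exact has
        · obtain ⟨i, hi, rfl⟩ := Finset.mem_image.1 hz
          exact (Finset.mem_erase.1 (hXs i (Finset.mem_range.1 hi))).2
      have hnle : ∀ i < k, ¬ a ≤ X i := by
        intro i hi hle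
        have h1 := hamax (Finset.mem_erase.1 (hXs i hi)).2 hle
        exact hcomp i hi h1
      have htanti : IsAntichain (· ≤ ·) (t : Set β) := by
        intro x hx y hy hne hle
        rcases Finset.mem_insert.1 (Finset.mem_coe.1 hx) with hxa | hx <;>
          rcases Finset.mem_insert.1 (Finset.mem_coe.1 hy) with hya | hy
        · exact hne (hxa.trans hya.symm)
        · obtain ⟨i, hi, rfl⟩ := Finset.mem_image.1 hy
          rw [hxa] at hle
          exact hnle i (Finset.mem_range.1 hi) hle
        · obtain ⟨i, hi, rfl⟩ := Finset.mem_image.1 hx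
          rw [hya] at hle
          exact hcomp i (Finset.mem_range.1 hi) hle
        · obtain ⟨i, hi, rfl⟩ := Finset.mem_image.1 hx
          obtain ⟨j, hj, rfl⟩ := Finset.mem_image.1 hy
          refine hXanti j (Finset.mem_range.1 hj) i (Finset.mem_range.1 hi) ?_ hle
          rintro rfl
          exact hne rfl
      have hkw' : k + 1 ≤ w := by
        rw [← htcard]; exact hw t hts htanti
      refine ⟨fun z => if z = a then k else c z, ?_, ?_⟩
      · intro x hx
        by_cases hxa : x = a
        · simp only [hxa, if_true]; omega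
        · simp only [hxa, if_false]
          have := hc x (Finset.mem_erase.2 ⟨hxa, hx⟩)
          omega
      · intro x hx y hy hxy
        by_cases hxa : x = a <;> by_cases hya : y = a
        · rw [hxa, hya]; exact Or.inl le_rfl
        · simp only [hxa, hya, if_true, if_false] at hxy
          have := hc y (Finset.mem_erase.2 ⟨hya, hy⟩)
          omega
        · simp only [hxa, hya, if_true, if_false] at hxy
          have := hc x (Finset.mem_erase.2 ⟨hxa, hx⟩)
          omega
        · simp only [hxa, hya, if_false] at hxy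
          exact hcc x (Finset.mem_erase.2 ⟨hxa, hx⟩) y (Finset.mem_erase.2 ⟨hya, hy⟩) hxy

end Pool.Agent.H302UC
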