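import Pool.Agent.H302UC.Width

/-! Union-closed families with at most four undominated elements. -/

namespace Pool.Agent.H302UC

variable {α : Type*} [DecidableEq α]

/-- every element of a member of `F` is dominated by an element of `T` -/
def Dom (F : Finset (Finset α)) (T : Finset α) : Prop :=
  ∀ A ∈ F, ∀ i ∈ A, ∃ t ∈ T, ∀ B ∈ F, i ∈ B → t ∈ B

/-- the number of members of `F` with trace `S` on `T` -/
def tr (F : Finset (Finset α)) (T S : Finset α) : ℕ := (F.filter (fun A => A ∩ T = S)).card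

theorem tr_mul (F : Finset (Finset α)) (hF : ∀ A ∈ F, ∀ B ∈ F, A ∪ B ∈ F) (T : Finset α)
    (hT : Dom F T) (S R : Finset α) (hSR : Disjoint S R) :
    tr F T S * tr F T R ≤ tr F T (S ∪ R) := by
  unfold tr
  rw [← Finset.card_product]
  apply Finset.card_le_card_of_injOn (fun z => z.1 ∪ z.2)
  · intro z hz
    have hz' := Finset.mem_product.1 (Finset.mem_coe.1 hz)
    have h1 := Finset.mem_filter.1 hz'.1
    have h2 := Finset.mem_filter.1 hz'.2
    refine Finset.mem_coe.2 (Finset.mem_filter.2 ⟨hF _ h1.1 _ h2.1, ?_⟩)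
    rw [Finset.union_inter_distrib_right, h1.2, h2.2]
  · have key : ∀ A ∈ F, ∀ A' ∈ F, ∀ B ∈ F, ∀ B' ∈ F, ∀ S R : Finset α, Disjoint S R →
        A ∩ T = S → A' ∩ T = S → B ∩ T = R → B' ∩ T = R → A ∪ B = A' ∪ B' → A ⊆ A' := by
      intro A hA A' hA' B hB B' hB' S R hSR h1 h2 h3 h4 h5 i hi
      obtain ⟨t, ht, hd⟩ := hT A hA i hi
      have htA : t ∈ A := hd A hA hi
      have htS : t ∈ S := by rw [← h1]; exact Finset.mem_inter.2 ⟨htA, ht⟩
      have h6 : i ∈ A' ∪ B' := by rw [← h5]; exact Finset.mem_union_left _ hi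
      rcases Finset.mem_union.1 h6 with h | h
      · exact h
      · have htB : t ∈ B' := hd B' hB' h
        have htR : t ∈ R := by rw [← h4]; exact Finset.mem_inter.2 ⟨htB, ht⟩
        exact absurd htR (Finset.disjoint_left.1 hSR htS)
    intro z hz z' hz' h
    have hz1 := Finset.mem_product.1 (Finset.mem_coe.1 hz)
    have hz2 := Finset.mem_product.1 (Finset.mem_coe.1 hz')
    have a1 := Finset.mem_filter.1 hz1.1
    have a2 := Finset.mem_filter.1 hz1.2
    have b1 := Finset.mem_filter.1 hz2.1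
    have b2 := Finset.mem_filter.1 hz2.2
    simp only at h
    refine Prod.ext ?_ ?_
    · exact Finset.Subset.antisymm
        (key _ a1.1 _ b1.1 _ a2.1 _ b2.1 S R hSR a1.2 b1.2 a2.2 b2.2 h)
        (key _ b1.1 _ a1.1 _ b2.1 _ a2.1 S R hSR b1.2 a1.2 b2.2 a2.2 h.symm)
    · have h' : z.2 ∪ z.1 = z'.2 ∪ z'.1 := by rw [Finset.union_comm, h, Finset.union_comm]
      exact Finset.Subset.antisymm
        (key _ a2.1 _ b2.1 _ a1.1 _ b1.1 R S hSR.symm a2.2 b2.2 a1.2 b1.2 h')
        (key _ b2.1 _ a2.1 _ b1.1 _ a1.1 R S hSR.symm b2.2 a2.2 b1.2 a1.2 h'.symm)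

theorem tr_empty (F : Finset (Finset α)) (T : Finset α) (hT : Dom F T) : tr F T ∅ ≤ 1 := by
  have h : F.filter (fun A => A ∩ T = ∅) ⊆ {∅} := by
    intro A hA
    have hA' := Finset.mem_filter.1 hA
    rw [Finset.mem_singleton]
    by_contra hne
    obtain ⟨i, hi⟩ := Finset.nonempty_iff_ne_empty.2 hne
    obtain ⟨t, ht, hd⟩ := hT A hA'.1 i hi
    have : t ∈ A ∩ T := Finset.mem_inter.2 ⟨hd A hA'.1 hi, ht⟩
    rw [hA'.2] at this
    exact absurd this (Finset.notMem_empty t)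
  exact (Finset.card_le_card h).trans (by simp)

theorem sum_tr (F : Finset (Finset α)) (T : Finset α) :
    ∑ S ∈ T.powerset, tr F T S = F.card :=
  (Finset.card_eq_sum_card_fiberwise (f := fun A => A ∩ T) (fun A _ => by
    simp [Finset.inter_subset_right])).symm

theorem sum_freq (F : Finset (Finset α)) (T : Finset α) :
    ∑ t ∈ T, (F.filter (fun A => t ∈ A)).card = ∑ S ∈ T.powerset, S.card * tr F T S := by
  have h1 : ∀ t ∈ T, (F.filter (fun A => t ∈ A)).card = ∑ A ∈ F, if t ∈ A then 1 else 0 := by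
    intro t _
    rw [Finset.card_filter]
  rw [Finset.sum_congr rfl h1, Finset.sum_comm]
  have h2 : ∀ A ∈ F, (∑ t ∈ T, if t ∈ A then 1 else 0) = (A ∩ T).card := by
    intro A _
    rw [Finset.inter_comm, ← Finset.filter_mem_eq_inter, Finset.card_filter]
  rw [Finset.sum_congr rfl h2]
  have hm : ∀ A ∈ F, A ∩ T ∈ T.powerset := fun A _ =>
    Finset.mem_powerset.2 Finset.inter_subset_right
  rw [← Finset.sum_fiberwise_of_maps_to hm]
  refine Finset.sum_congr rfl fun S _ => ?_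
  rw [tr, mul_comm, ← smul_eq_mul, ← Finset.sum_const]
  refine Finset.sum_congr rfl fun A hA => ?_
  rw [(Finset.mem_filter.1 hA).2]

/-- if all traces on a dominating set occur exactly once, then a separating family is a power
set -/
theorem power_of_tr (F : Finset (Finset α)) (hF : ∀ A ∈ F, ∀ B ∈ F, A ∪ B ∈ F) (T : Finset α)
    (hT : Dom F T) (hsep : ∀ A ∈ F, ∀ x ∈ A, ∀ B ∈ F, ∀ y ∈ B, x ≠ y →
      ∃ C ∈ F, (x ∈ C ∧ y ∉ C) ∨ (y ∈ C ∧ x ∉ C))
    (h1 : ∀ S ⊆ T, tr F T S = 1) : F = T.powerset := by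
  have hsub : ∀ A ∈ F, A ⊆ T := by
    intro A hA i hi
    by_contra hiT
    obtain ⟨t, ht, hd⟩ := hT A hA i hi
    have hne : i ≠ t := fun h => hiT (h ▸ ht)
    obtain ⟨C, hC, hC'⟩ := hsep A hA i hi A hA t (hd A hA hi) hne
    rcases hC' with ⟨h2, h3⟩ | ⟨h2, h3⟩
    · exact h3 (hd C hC h2)
    -- the member with trace `{t}`
    have h4 : tr F T {t} = 1 := h1 {t} (by simpa using ht)
    obtain ⟨D, hD⟩ := Finset.card_eq_one.1 h4
    have hD' : D ∈ F.filter (fun A => A ∩ T = {t}) := by rw [hD]; simp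
    have hD2 := Finset.mem_filter.1 hD'
    -- the member with trace `(A ∩ T) \ {t}` and `A` itself
    have h5 : tr F T (A ∩ T) = 1 := h1 _ Finset.inter_subset_right
    have h6 : tr F T (C ∩ T) = 1 := h1 _ Finset.inter_subset_right
    have htC : t ∈ C ∩ T := Finset.mem_inter.2 ⟨h2, ht⟩
    have htD : t ∈ D := by
      have : t ∈ D ∩ T := by rw [hD2.2]; simp
      exact (Finset.mem_inter.1 this).1
    have hDC : D ⊆ C := by
      have h7 : (D ∪ C) ∩ T = C ∩ T := by
        rw [Finset.union_inter_distrib_right, hD2.2]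
        exact Finset.union_eq_right.2 (Finset.singleton_subset_iff.2 htC)
      obtain ⟨E, hE⟩ := Finset.card_eq_one.1 h6
      have e1 : C ∈ ({E} : Finset (Finset α)) := by
        rw [← hE]; exact Finset.mem_filter.2 ⟨hC, rfl⟩
      have e2 : D ∪ C ∈ ({E} : Finset (Finset α)) := by
        rw [← hE]; exact Finset.mem_filter.2 ⟨hF _ hD2.1 _ hC, h7⟩
      rw [Finset.mem_singleton] at e1 e2
      rw [← e1] at e2
      exact Finset.union_eq_right.1 e2
    -- the member with trace `(A ∩ T) \ {t}`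
    have h8 : tr F T ((A ∩ T).erase t) = 1 :=
      h1 _ ((Finset.erase_subset _ _).trans Finset.inter_subset_right)
    obtain ⟨E, hE⟩ := Finset.card_eq_one.1 h8
    have hE' : E ∈ F.filter (fun B => B ∩ T = (A ∩ T).erase t) := by rw [hE]; simp
    have hE2 := Finset.mem_filter.1 hE'
    have htA : t ∈ A ∩ T := Finset.mem_inter.2 ⟨hd A hA hi, ht⟩
    have h9 : (D ∪ E) ∩ T = A ∩ T := by
      rw [Finset.union_inter_distrib_right, hD2.2, hE2.2]
      ext x
      simp only [Finset.mem_union, Finset.mem_singleton, Finset.mem_erase]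
      constructor
      · rintro (rfl | h)
        · exact htA
        · exact h.2
      · intro h
        by_cases hx : x = t
        · exact Or.inl hx
        · exact Or.inr ⟨hx, h⟩
    obtain ⟨X, hX⟩ := Finset.card_eq_one.1 h5
    have e1 : A ∈ ({X} : Finset (Finset α)) := by
      rw [← hX]; exact Finset.mem_filter.2 ⟨hA, rfl⟩
    have e2 : D ∪ E ∈ ({X} : Finset (Finset α)) := by
      rw [← hX]; exact Finset.mem_filter.2 ⟨hF _ hD2.1 _ hE2.1, h9⟩
    rw [Finset.mem_singleton] at e1 e2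
    rw [← e1] at e2
    rw [← e2] at hi
    rcases Finset.mem_union.1 hi with h | h
    · exact h3 (hDC h)
    · have htE : t ∈ E ∩ T := Finset.mem_inter.2 ⟨hd E hE2.1 h, ht⟩
      rw [hE2.2] at htE
      exact (Finset.mem_erase.1 htE).1 rfl
  apply Finset.Subset.antisymm
  · intro A hA
    exact Finset.mem_powerset.2 (hsub A hA)
  · intro S hS
    have hS' := Finset.mem_powerset.1 hS
    obtain ⟨A, hA⟩ := Finset.card_eq_one.1 (h1 S hS')
    have hA' : A ∈ F.filter (fun A => A ∩ T = S) := by rw [hA]; simp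
    have hA2 := Finset.mem_filter.1 hA'
    have h3 : A ∩ T = A := Finset.inter_eq_left.2 (hsub A hA2.1)
    rw [← hA2.2, h3]
    exact hA2.1

/-- a minimal dominating subset: the traces `T` and `T \ {t}` occur -/
theorem exists_min_dom (F : Finset (Finset α)) (hF : ∀ A ∈ F, ∀ B ∈ F, A ∪ B ∈ F)
    (hne : ∃ A ∈ F, A.Nonempty) (T₀ : Finset α) (hT₀ : Dom F T₀) :
    ∃ T ⊆ T₀, T.Nonempty ∧ Dom F T ∧ 1 ≤ tr F T T ∧
      (2 ≤ T.card → ∀ t ∈ T, 1 ≤ tr F T (T.erase t)) := by
  classical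
  set DD := T₀.powerset.filter (fun T => Dom F T) with hDD
  have hmem : ∀ T, T ∈ DD ↔ T ⊆ T₀ ∧ Dom F T := by
    intro T; simp [hDD]
  obtain ⟨T, hT, hTmin⟩ := DD.exists_min_image Finset.card ⟨T₀, (hmem T₀).2
    ⟨Finset.Subset.refl _, hT₀⟩⟩
  have hT' := (hmem T).1 hT
  have hdom := hT'.2
  obtain ⟨A₀, hA₀, i₀, hi₀⟩ := hne
  obtain ⟨t₀, ht₀, _⟩ := hdom A₀ hA₀ i₀ hi₀
  have hsup : ∀ G : Finset (Finset α), G.Nonempty → G ⊆ F → G.biUnion id ∈ F := by
    intro G hG
    induction hG using Finset.Nonempty.cons_induction with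
    | singleton a => intro h; simpa using h
    | cons a s ha hs ih =>
      intro h
      rw [Finset.cons_eq_insert] at h ⊢
      rw [Finset.biUnion_insert]
      exact hF _ (h (Finset.mem_insert_self _ _)) _ (ih fun x hx => h (Finset.mem_insert_of_mem hx))
  -- no element of `T` dominates another
  have hnd : ∀ t ∈ T, ∀ r ∈ T, t ≠ r → ∃ B ∈ F, r ∈ B ∧ t ∉ B := by
    intro t ht r hr htr
    by_contra hcon
    push Not at hcon
    have hm : T.erase r ∈ DD := by
      refine (hmem _).2 ⟨(Finset.erase_subset _ _).trans hT'.1, ?_⟩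
      intro A hA i hi
      obtain ⟨t', ht', h⟩ := hdom A hA i hi
      by_cases h' : t' = r
      · subst h'
        exact ⟨t, Finset.mem_erase.2 ⟨htr, ht⟩, fun B hB hiB => hcon B hB (h B hB hiB)⟩
      · exact ⟨t', Finset.mem_erase.2 ⟨h', ht'⟩, h⟩
    have h1 := hTmin _ hm
    have h2 := Finset.card_erase_lt_of_mem hr
    omega
  -- every element of `T` occurs
  have hocc : ∀ t ∈ T, ∃ B ∈ F, t ∈ B := by
    intro t ht
    by_contra hcon
    push Not at hcon
    have hm : T.erase t ∈ DD := by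
      refine (hmem _).2 ⟨(Finset.erase_subset _ _).trans hT'.1, ?_⟩
      intro A hA i hi
      obtain ⟨t', ht', h⟩ := hdom A hA i hi
      refine ⟨t', Finset.mem_erase.2 ⟨?_, ht'⟩, h⟩
      rintro rfl
      exact hcon A hA (h A hA hi)
    have h1 := hTmin _ hm
    have h2 := Finset.card_erase_lt_of_mem ht
    omega
  refine ⟨T, hT'.1, ⟨t₀, ht₀⟩, hdom, ?_, ?_⟩
  · refine Finset.card_pos.2 ⟨F.biUnion id, Finset.mem_filter.2
      ⟨hsup F ⟨A₀, hA₀⟩ (Finset.Subset.refl _), ?_⟩⟩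
    refine Finset.inter_eq_right.2 fun t ht => ?_
    obtain ⟨B, hB, htB⟩ := hocc t ht
    exact Finset.mem_biUnion.2 ⟨B, hB, htB⟩
  · intro h2 t ht
    obtain ⟨r, hr, hrt⟩ := Finset.exists_mem_ne (by omega : 1 < T.card) t
    obtain ⟨B, hB, hrB, htB⟩ := hnd t ht r hr (Ne.symm hrt)
    refine Finset.card_pos.2 ⟨(F.filter (fun A => t ∉ A)).biUnion id, Finset.mem_filter.2
      ⟨hsup _ ⟨B, Finset.mem_filter.2 ⟨hB, htB⟩⟩ (Finset.filter_subset _ _), ?_⟩⟩
    ext x
    simp only [Finset.mem_inter, Finset.mem_biUnion, Finset.mem_filter, id, Finset.mem_erase]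
    constructor
    · rintro ⟨⟨A, ⟨hA, htA⟩, hxA⟩, hxT⟩
      refine ⟨?_, hxT⟩
      rintro rfl
      exact htA hxA
    · rintro ⟨hxt, hxT⟩
      obtain ⟨C, hC, hxC, htC⟩ := hnd t ht x hxT (Ne.symm hxt)
      exact ⟨⟨C, ⟨hC, htC⟩, hxC⟩, hxT⟩

end Pool.Agent.H302UC
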