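import Pool.Agent.H302UC.Four

/-! The weight inequality for at most four undominated elements. -/

namespace Pool.Agent.H302UC

variable {α : Type*} [DecidableEq α]

theorem le_of_mul_le_of_one_le {x y z : ℕ} (h : x * y ≤ z) (hy : 1 ≤ y) : x ≤ z :=
  (Nat.le_mul_of_pos_right x hy).trans h

theorem le_of_mul_le_of_one_le' {x y z : ℕ} (h : x * y ≤ z) (hx : 1 ≤ x) : y ≤ z :=
  (Nat.le_mul_of_pos_left y hx).trans h

theorem one_le_of_mul_le {x y z : ℕ} (h : x * y ≤ z) (hx : 1 ≤ x) (hy : 1 ≤ y) : 1 ≤ z :=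
  hx.trans (le_of_mul_le_of_one_le h hy)

theorem all_one (T : Finset α) (g : Finset α → ℕ) (h0 : g ∅ = 1) (h1 : ∀ t ∈ T, 1 ≤ g {t})
    (hT : g T ≤ 1) (hm : ∀ S R : Finset α, Disjoint S R → g S * g R ≤ g (S ∪ R)) :
    ∀ S ⊆ T, g S = 1 := by
  have hpos : ∀ S : Finset α, S ⊆ T → 1 ≤ g S := by
    intro S
    induction S using Finset.induction_on with
    | empty => intro _; omega
    | insert a S ha ih =>
      intro h
      have h2 := hm {a} S (by simpa using ha)
      rw [← Finset.insert_eq] at h2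
      exact one_le_of_mul_le h2 (h1 a (h (Finset.mem_insert_self _ _)))
        (ih ((Finset.subset_insert _ _).trans h))
  intro S hS
  have h2 := hm S (T \ S) Finset.disjoint_sdiff
  rw [Finset.union_sdiff_of_subset hS] at h2
  have h3 := le_of_mul_le_of_one_le h2 (hpos _ Finset.sdiff_subset)
  have h4 := hpos S hS
  omega

theorem arith_four (f0 a b c d abc abd acd bcd T : ℕ) (h0 : f0 ≤ 1) (hT : 1 ≤ T)
    (k1 : 1 ≤ abc) (k2 : 1 ≤ abd) (k3 : 1 ≤ acd) (k4 : 1 ≤ bcd) (e1 : a ≤ T) (e2 : b ≤ T)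
    (e3 : c ≤ T) (e4 : d ≤ T) (F1 : 1 ≤ c → 1 ≤ d → b ≤ bcd) (F2 : 1 ≤ c → 1 ≤ d → a ≤ acd)
    (F3 : 1 ≤ b → 1 ≤ d → a ≤ abd) (F4 : 1 ≤ b → 1 ≤ c → a ≤ abc) (F5 : 1 ≤ a → 1 ≤ d → b ≤ abd)
    (F6 : 1 ≤ a → 1 ≤ d → c ≤ acd) (F7 : 1 ≤ b → 1 ≤ c → d ≤ bcd) :
    2 * f0 + a + b + c + d < abc + abd + acd + bcd + 2 * T ∨
      (f0 = 1 ∧ T ≤ 1 ∧ 1 ≤ a ∧ 1 ≤ b ∧ 1 ≤ c ∧ 1 ≤ d) := by
  rcases Nat.eq_zero_or_pos a with ha | ha <;>
  rcases Nat.eq_zero_or_pos b with hb | hb <;>
  rcases Nat.eq_zero_or_pos c with hc | hc <;>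
  rcases Nat.eq_zero_or_pos d with hd | hd
  all_goals first
    | (clear F1 F2 F3 F4 F5 F6 F7; left; omega)
    | (have G := F1 hc hd; clear F1 F2 F3 F4 F5 F6 F7; left; omega)
    | (have G := F2 hc hd; clear F1 F2 F3 F4 F5 F6 F7; left; omega)
    | (have G := F3 hb hd; clear F1 F2 F3 F4 F5 F6 F7; left; omega)
    | (have G := F4 hb hc; clear F1 F2 F3 F4 F5 F6 F7; left; omega)
    | (have G4 := F4 hb hc; have G5 := F5 ha hd; have G6 := F6 ha hd; have G7 := F7 hb hc
       clear F1 F2 F3 F4 F5 F6 F7; omega)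

/-- The conclusion of the weight inequality. -/
def Concl (T : Finset α) (g : Finset α → ℕ) : Prop :=
  T.card * ∑ S ∈ T.powerset, g S < 2 * ∑ S ∈ T.powerset, S.card * g S ∨ ∀ S ⊆ T, g S = 1

theorem weight_one (a : α) (g : Finset α → ℕ) (h0 : g ∅ ≤ 1) (hT : 1 ≤ g {a})
    (hm : ∀ S R : Finset α, Disjoint S R → g S * g R ≤ g (S ∪ R)) :
    Concl {a} g := by
  have hs : ∀ f : Finset α → ℕ, ∑ S ∈ ({a} : Finset α).powerset, f S = f ∅ + f {a} := by
    intro f
    have : ({a} : Finset α) = insert a ∅ := by simp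
    rw [this, Finset.sum_powerset_insert (by simp)]
    simp
  unfold Concl
  rw [hs, hs]
  simp only [Finset.card_singleton, Finset.card_empty]
  by_cases h : g ∅ < g {a}
  · left; omega
  · right
    apply all_one _ _ (by omega) _ (by omega) hm
    intro t ht
    rw [Finset.mem_singleton] at ht
    subst ht; exact hT

theorem weight_two (a b : α) (hab : a ≠ b) (g : Finset α → ℕ) (h0 : g ∅ ≤ 1)
    (hT : 1 ≤ g {a, b}) (ha : 1 ≤ g {a}) (hb : 1 ≤ g {b})
    (hm : ∀ S R : Finset α, Disjoint S R → g S * g R ≤ g (S ∪ R)) :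
    Concl {a, b} g := by
  have hs : ∀ f : Finset α → ℕ, ∑ S ∈ ({a, b} : Finset α).powerset, f S =
      f ∅ + f {b} + (f {a} + f {a, b}) := by
    intro f
    have : ({a, b} : Finset α) = insert a (insert b ∅) := by simp
    rw [this, Finset.sum_powerset_insert (by simp [hab]), Finset.sum_powerset_insert (by simp),
      Finset.sum_powerset_insert (by simp)]
    simp
  unfold Concl
  rw [hs, hs]
  have hc : ({a, b} : Finset α).card = 2 := Finset.card_pair hab
  simp only [Finset.card_singleton, Finset.card_empty, hc]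
  by_cases h : g ∅ < g {a, b}
  · left; omega
  · right
    apply all_one _ _ (by omega) _ (by omega) hm
    intro t ht
    simp only [Finset.mem_insert, Finset.mem_singleton] at ht
    rcases ht with rfl | rfl <;> assumption

theorem weight_three (a b c : α) (hab : a ≠ b) (hac : a ≠ c) (hbc : b ≠ c) (g : Finset α → ℕ)
    (h0 : g ∅ ≤ 1) (hT : 1 ≤ g {a, b, c}) (kab : 1 ≤ g {a, b}) (kac : 1 ≤ g {a, c})
    (kbc : 1 ≤ g {b, c})
    (hm : ∀ S R : Finset α, Disjoint S R → g S * g R ≤ g (S ∪ R)) :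
    Concl {a, b, c} g := by
  have hs : ∀ f : Finset α → ℕ, ∑ S ∈ ({a, b, c} : Finset α).powerset, f S =
      (f ∅ + f {c} + (f {b} + f {b, c})) + (f {a} + f {a, c} + (f {a, b} + f {a, b, c})) := by
    intro f
    have : ({a, b, c} : Finset α) = insert a (insert b (insert c ∅)) := by simp
    have ha : a ∉ insert b (insert c (∅ : Finset α)) := by simp [hab, hac]
    have hb : b ∉ insert c (∅ : Finset α) := by simp [hbc]
    have hc : c ∉ (∅ : Finset α) := by simp
    rw [this]
    simp only [Finset.sum_powerset_insert ha, Finset.sum_powerset_insert hb,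
      Finset.sum_powerset_insert hc, Finset.powerset_empty, Finset.sum_singleton]
    simp only [insert_empty_eq]
  have p1 : g {a} * g {b, c} ≤ g {a, b, c} := hm {a} {b, c} (by simp [hab, hac])
  have p2 : g {b} * g {a, c} ≤ g {a, b, c} := by
    have := hm {b} {a, c} (by simp [hab.symm, hbc])
    rwa [show ({b} : Finset α) ∪ {a, c} = {a, b, c} by ext x; simp <;> tauto] at this
  have p3 : g {c} * g {a, b} ≤ g {a, b, c} := by
    have := hm {c} {a, b} (by simp [hac.symm, hbc.symm])
    rwa [show ({c} : Finset α) ∪ {a, b} = {a, b, c} by ext x; simp <;> tauto] at this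
  have e1 := le_of_mul_le_of_one_le p1 kbc
  have e2 := le_of_mul_le_of_one_le p2 kac
  have e3 := le_of_mul_le_of_one_le p3 kab
  have q1 : g {a} * g {b} ≤ g {a, b} := hm {a} {b} (by simp [hab])
  unfold Concl
  have hc3 : ({a, b, c} : Finset α).card = 3 := Finset.card_eq_three.2 ⟨a, b, c, hab, hac, hbc, rfl⟩
  rw [hs, hs, hc3]
  simp only [Finset.card_singleton, Finset.card_empty, Finset.card_pair hab,
    Finset.card_pair hac, Finset.card_pair hbc]
  by_cases h : 3 * g ∅ + g {a} + g {b} + g {c} < g {a, b} + g {a, c} + g {b, c} + 3 * g {a, b, c}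
  · left; omega
  · right
    have s1 : g {a} = g {a, b, c} := by omega
    have s2 : g {b} = g {a, b, c} := by omega
    have s3 : g {c} = g {a, b, c} := by omega
    have s4 : g {a, b} = 1 := by omega
    have s7 : g ∅ = 1 := by omega
    have s8 : g {a} ≤ 1 := by
      have := le_of_mul_le_of_one_le q1 (by omega)
      omega
    apply all_one _ _ s7 _ (by omega) hm
    intro t ht
    simp only [Finset.mem_insert, Finset.mem_singleton] at ht
    rcases ht with rfl | rfl | rfl <;> omega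

theorem weight_four (a b c d : α) (hab : a ≠ b) (hac : a ≠ c) (had : a ≠ d) (hbc : b ≠ c)
    (hbd : b ≠ d) (hcd : c ≠ d) (g : Finset α → ℕ)
    (h0 : g ∅ ≤ 1) (hT : 1 ≤ g {a, b, c, d}) (kabc : 1 ≤ g {a, b, c}) (kabd : 1 ≤ g {a, b, d})
    (kacd : 1 ≤ g {a, c, d}) (kbcd : 1 ≤ g {b, c, d})
    (hm : ∀ S R : Finset α, Disjoint S R → g S * g R ≤ g (S ∪ R)) :
    Concl {a, b, c, d} g := by
  have hs : ∀ f : Finset α → ℕ, ∑ S ∈ ({a, b, c, d} : Finset α).powerset, f S =
      ((f ∅ + f {d} + (f {c} + f {c, d})) + (f {b} + f {b, d} + (f {b, c} + f {b, c, d}))) +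
      ((f {a} + f {a, d} + (f {a, c} + f {a, c, d})) +
        (f {a, b} + f {a, b, d} + (f {a, b, c} + f {a, b, c, d}))) := by
    intro f
    have : ({a, b, c, d} : Finset α) = insert a (insert b (insert c (insert d ∅))) := by simp
    have ha : a ∉ insert b (insert c (insert d (∅ : Finset α))) := by simp [hab, hac, had]
    have hb : b ∉ insert c (insert d (∅ : Finset α)) := by simp [hbc, hbd]
    have hc : c ∉ insert d (∅ : Finset α) := by simp [hcd]
    have hd : d ∉ (∅ : Finset α) := by simp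
    rw [this]
    simp only [Finset.sum_powerset_insert ha, Finset.sum_powerset_insert hb,
      Finset.sum_powerset_insert hc, Finset.sum_powerset_insert hd, Finset.powerset_empty,
      Finset.sum_singleton]
    simp only [insert_empty_eq]
  have t1 : g {a} * g {b, c, d} ≤ g {a, b, c, d} := hm {a} {b, c, d} (by simp [hab, hac, had])
  have t2 : g {b} * g {a, c, d} ≤ g {a, b, c, d} := by
    have := hm {b} {a, c, d} (by simp [hab.symm, hbc, hbd])
    rwa [show ({b} : Finset α) ∪ {a, c, d} = {a, b, c, d} by ext x; simp <;> tauto] at this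
  have t3 : g {c} * g {a, b, d} ≤ g {a, b, c, d} := by
    have := hm {c} {a, b, d} (by simp [hac.symm, hbc.symm, hcd])
    rwa [show ({c} : Finset α) ∪ {a, b, d} = {a, b, c, d} by ext x; simp <;> tauto] at this
  have t4 : g {d} * g {a, b, c} ≤ g {a, b, c, d} := by
    have := hm {d} {a, b, c} (by simp [had.symm, hbd.symm, hcd.symm])
    rwa [show ({d} : Finset α) ∪ {a, b, c} = {a, b, c, d} by ext x; simp <;> tauto] at this
  -- singletons into pairs
  have q1 : g {a} * g {b} ≤ g {a, b} := hm {a} {b} (by simp [hab])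
  have q2 : g {a} * g {c} ≤ g {a, c} := hm {a} {c} (by simp [hac])
  have q3 : g {a} * g {d} ≤ g {a, d} := hm {a} {d} (by simp [had])
  have q4 : g {b} * g {c} ≤ g {b, c} := hm {b} {c} (by simp [hbc])
  have q5 : g {b} * g {d} ≤ g {b, d} := hm {b} {d} (by simp [hbd])
  have q6 : g {c} * g {d} ≤ g {c, d} := hm {c} {d} (by simp [hcd])
  -- singletons and pairs into triples
  have r1 : g {a} * g {b, c} ≤ g {a, b, c} := hm {a} {b, c} (by simp [hab, hac])
  have r2 : g {b} * g {a, c} ≤ g {a, b, c} := by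
    have := hm {b} {a, c} (by simp [hab.symm, hbc])
    rwa [show ({b} : Finset α) ∪ {a, c} = {a, b, c} by ext x; simp <;> tauto] at this
  have r3 : g {c} * g {a, b} ≤ g {a, b, c} := by
    have := hm {c} {a, b} (by simp [hac.symm, hbc.symm])
    rwa [show ({c} : Finset α) ∪ {a, b} = {a, b, c} by ext x; simp <;> tauto] at this
  have r4 : g {a} * g {b, d} ≤ g {a, b, d} := hm {a} {b, d} (by simp [hab, had])
  have r5 : g {b} * g {a, d} ≤ g {a, b, d} := by
    have := hm {b} {a, d} (by simp [hab.symm, hbd])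
    rwa [show ({b} : Finset α) ∪ {a, d} = {a, b, d} by ext x; simp <;> tauto] at this
  have r6 : g {d} * g {a, b} ≤ g {a, b, d} := by
    have := hm {d} {a, b} (by simp [had.symm, hbd.symm])
    rwa [show ({d} : Finset α) ∪ {a, b} = {a, b, d} by ext x; simp <;> tauto] at this
  have r7 : g {a} * g {c, d} ≤ g {a, c, d} := hm {a} {c, d} (by simp [hac, had])
  have r8 : g {c} * g {a, d} ≤ g {a, c, d} := by
    have := hm {c} {a, d} (by simp [hac.symm, hcd])
    rwa [show ({c} : Finset α) ∪ {a, d} = {a, c, d} by ext x; simp <;> tauto] at this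
  have r9 : g {d} * g {a, c} ≤ g {a, c, d} := by
    have := hm {d} {a, c} (by simp [had.symm, hcd.symm])
    rwa [show ({d} : Finset α) ∪ {a, c} = {a, c, d} by ext x; simp <;> tauto] at this
  have r10 : g {b} * g {c, d} ≤ g {b, c, d} := hm {b} {c, d} (by simp [hbc, hbd])
  have r11 : g {c} * g {b, d} ≤ g {b, c, d} := by
    have := hm {c} {b, d} (by simp [hbc.symm, hcd])
    rwa [show ({c} : Finset α) ∪ {b, d} = {b, c, d} by ext x; simp <;> tauto] at this
  have r12 : g {d} * g {b, c} ≤ g {b, c, d} := by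
    have := hm {d} {b, c} (by simp [hbd.symm, hcd.symm])
    rwa [show ({d} : Finset α) ∪ {b, c} = {b, c, d} by ext x; simp <;> tauto] at this
  have e1 := le_of_mul_le_of_one_le t1 kbcd
  have e2 := le_of_mul_le_of_one_le t2 kacd
  have e3 := le_of_mul_le_of_one_le t3 kabd
  have e4 := le_of_mul_le_of_one_le t4 kabc
  -- consequences
  have F1 : 1 ≤ g {c} → 1 ≤ g {d} → g {b} ≤ g {b, c, d} := fun h1 h2 =>
    le_of_mul_le_of_one_le r10 (one_le_of_mul_le q6 h1 h2)
  have F2 : 1 ≤ g {c} → 1 ≤ g {d} → g {a} ≤ g {a, c, d} := fun h1 h2 =>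
    le_of_mul_le_of_one_le r7 (one_le_of_mul_le q6 h1 h2)
  have F3 : 1 ≤ g {b} → 1 ≤ g {d} → g {a} ≤ g {a, b, d} := fun h1 h2 =>
    le_of_mul_le_of_one_le r4 (one_le_of_mul_le q5 h1 h2)
  have F4 : 1 ≤ g {b} → 1 ≤ g {c} → g {a} ≤ g {a, b, c} := fun h1 h2 =>
    le_of_mul_le_of_one_le r1 (one_le_of_mul_le q4 h1 h2)
  have F5 : 1 ≤ g {a} → 1 ≤ g {d} → g {b} ≤ g {a, b, d} := fun h1 h2 =>
    le_of_mul_le_of_one_le r5 (one_le_of_mul_le q3 h1 h2)
  have F6 : 1 ≤ g {a} → 1 ≤ g {d} → g {c} ≤ g {a, c, d} := fun h1 h2 =>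
    le_of_mul_le_of_one_le r8 (one_le_of_mul_le q3 h1 h2)
  have F7 : 1 ≤ g {b} → 1 ≤ g {c} → g {d} ≤ g {b, c, d} := fun h1 h2 =>
    le_of_mul_le_of_one_le r12 (one_le_of_mul_le q4 h1 h2)
  have hA := arith_four _ _ _ _ _ _ _ _ _ _ h0 hT kabc kabd kacd kbcd e1 e2 e3 e4
    F1 F2 F3 F4 F5 F6 F7
  unfold Concl
  have c3 : ∀ x y z : α, x ≠ y → x ≠ z → y ≠ z → ({x, y, z} : Finset α).card = 3 :=
    fun x y z h1 h2 h3 => Finset.card_eq_three.2 ⟨x, y, z, h1, h2, h3, rfl⟩
  have c4 : ({a, b, c, d} : Finset α).card = 4 := by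
    rw [Finset.card_insert_of_notMem (by simp [hab, hac, had]), c3 b c d hbc hbd hcd]
  rw [hs, hs, c4]
  simp only [Finset.card_singleton, Finset.card_empty, Finset.card_pair hab,
    Finset.card_pair hac, Finset.card_pair had, Finset.card_pair hbc, Finset.card_pair hbd,
    Finset.card_pair hcd, c3 b c d hbc hbd hcd, c3 a c d hac had hcd, c3 a b d hab had hbd,
    c3 a b c hab hac hbc]
  rcases hA with h | ⟨s7, s8, h1, h2, h3, h4⟩
  · left
    clear F1 F2 F3 F4 F5 F6 F7
    omega
  · right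
    apply all_one _ _ s7 _ s8 hm
    intro t ht
    simp only [Finset.mem_insert, Finset.mem_singleton] at ht
    rcases ht with rfl | rfl | rfl | rfl <;> assumption

/-- A union-closed family dominated by at most four elements: some element lies in more than half
of the members, or every trace on a minimal dominating set occurs exactly once. -/
theorem four_main (F : Finset (Finset α)) (hF : ∀ A ∈ F, ∀ B ∈ F, A ∪ B ∈ F)
    (hne : ∃ A ∈ F, A.Nonempty) (T₀ : Finset α) (hT₀ : Dom F T₀) (h4 : T₀.card ≤ 4) :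
    (∃ x, F.card < 2 * (F.filter (fun A => x ∈ A)).card) ∨
    ∃ T : Finset α, T.Nonempty ∧ Dom F T ∧ ∀ S ⊆ T, tr F T S = 1 := by
  obtain ⟨T, hTT, hTne, hdom, hTT1, herase⟩ := exists_min_dom F hF hne T₀ hT₀
  have hcard : T.card ≤ 4 := (Finset.card_le_card hTT).trans h4
  have hpos : 0 < T.card := Finset.card_pos.2 hTne
  have h0 := tr_empty F T hdom
  have hm : ∀ S R : Finset α, Disjoint S R → tr F T S * tr F T R ≤ tr F T (S ∪ R) :=
    tr_mul F hF T hdom
  have hconcl : Concl T (tr F T) := by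
    obtain h | h | h | h : T.card = 1 ∨ T.card = 2 ∨ T.card = 3 ∨ T.card = 4 := by omega
    · obtain ⟨a, rfl⟩ := Finset.card_eq_one.1 h
      exact weight_one a _ h0 hTT1 hm
    · obtain ⟨a, b, hab, rfl⟩ := Finset.card_eq_two.1 h
      have k := herase (by omega)
      have ka := k a (by simp)
      have kb := k b (by simp)
      rw [Finset.erase_insert (by simp [hab])] at ka
      rw [Finset.erase_insert_of_ne hab, Finset.erase_singleton, insert_empty_eq] at kb
      exact weight_two a b hab _ h0 hTT1 kb ka hm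
    · obtain ⟨a, b, c, hab, hac, hbc, rfl⟩ := Finset.card_eq_three.1 h
      have k := herase (by omega)
      have ka := k a (by simp)
      have kb := k b (by simp)
      have kc := k c (by simp)
      rw [Finset.erase_insert (by simp [hab, hac])] at ka
      rw [Finset.erase_insert_of_ne hab, Finset.erase_insert (by simp [hbc])] at kb
      rw [Finset.erase_insert_of_ne hac, Finset.erase_insert_of_ne hbc, Finset.erase_singleton,
        insert_empty_eq] at kc
      exact weight_three a b c hab hac hbc _ h0 hTT1 kc kb ka hm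
    · obtain ⟨a, T', haT, rfl, hT'⟩ := Finset.card_eq_succ.1 h
      obtain ⟨b, c, d, hbc, hbd, hcd, rfl⟩ := Finset.card_eq_three.1 hT'
      simp only [Finset.mem_insert, Finset.mem_singleton, not_or] at haT
      obtain ⟨hab, hac, had⟩ := haT
      have k := herase (by omega)
      have ka := k a (by simp)
      have kb := k b (by simp)
      have kc := k c (by simp)
      have kd := k d (by simp)
      rw [Finset.erase_insert (by simp [hab, hac, had])] at ka
      rw [Finset.erase_insert_of_ne hab, Finset.erase_insert (by simp [hbc, hbd])] at kb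
      rw [Finset.erase_insert_of_ne hac, Finset.erase_insert_of_ne hbc,
        Finset.erase_insert (by simp [hcd])] at kc
      rw [Finset.erase_insert_of_ne had, Finset.erase_insert_of_ne hbd,
        Finset.erase_insert_of_ne hcd, Finset.erase_singleton, insert_empty_eq] at kd
      exact weight_four a b c d hab hac had hbc hbd hcd _ h0 hTT1 kd kc kb ka hm
  rcases hconcl with h | h
  · left
    rw [sum_tr, ← sum_freq] at h
    by_contra hcon
    push Not at hcon
    have h5 : 2 * ∑ t ∈ T, (F.filter (fun A => t ∈ A)).card ≤ ∑ _t ∈ T, F.card := by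
      rw [Finset.mul_sum]
      exact Finset.sum_le_sum fun t _ => hcon t
    rw [Finset.sum_const, smul_eq_mul] at h5
    omega
  · right
    exact ⟨T, hTne, hdom, h⟩

end Pool.Agent.H302UC
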