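import Pool.Agent.H302UC.Dilworth

/-! Union-closed families of small width. -/

namespace Pool.Agent.H302UC

variable {α : Type*} [DecidableEq α]

/-- a chain of sets can be enumerated in increasing order -/
theorem chain_enum (J : Finset (Finset α)) : (∀ x ∈ J, ∀ y ∈ J, x ⊆ y ∨ y ⊆ x) →
    ∃ a : ℕ → Finset α, (∀ q < J.card, a q ∈ J) ∧ ∀ p q, p < q → q < J.card → a p ⊂ a q := by
  induction J using Finset.strongInduction with
  | H J ih =>
    intro hJ
    rcases J.eq_empty_or_nonempty with rfl | hne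
    · exact ⟨fun _ => ∅, by simp, by simp⟩
    obtain ⟨M, hM, hMmax⟩ := J.exists_max_image Finset.card hne
    obtain ⟨a, ha, haa⟩ := ih (J.erase M) (Finset.erase_ssubset hM) (fun x hx y hy =>
      hJ x (Finset.mem_of_mem_erase hx) y (Finset.mem_of_mem_erase hy))
    have hc : (J.erase M).card = J.card - 1 := Finset.card_erase_of_mem hM
    have hpos : 0 < J.card := Finset.card_pos.2 hne
    refine ⟨fun q => if q < (J.erase M).card then a q else M, ?_, ?_⟩
    · intro q hq
      by_cases h : q < (J.erase M).card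
      · simp only [h, if_true]
        exact Finset.mem_of_mem_erase (ha q h)
      · simp only [h, if_false]
        exact hM
    · intro p q hpq hq
      have hp : p < (J.erase M).card := by omega
      by_cases h : q < (J.erase M).card
      · simp only [h, hp, if_true]
        exact haa p q hpq h
      · simp only [h, hp, if_true, if_false]
        have hap := ha p hp
        have hne' : a p ≠ M := Finset.ne_of_mem_erase hap
        have hapJ := Finset.mem_of_mem_erase hap
        rcases hJ (a p) hapJ M hM with h1 | h1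
        · exact Finset.ssubset_iff_subset_ne.2 ⟨h1, hne'⟩
        · exact absurd (Finset.eq_of_subset_of_card_le h1 (hMmax _ hapJ)).symm hne'

/-- in a chain, at most `w` members have at most `w` members below them -/
theorem chain_low (J : Finset (Finset α)) (hJ : ∀ x ∈ J, ∀ y ∈ J, x ⊆ y ∨ y ⊆ x) (w : ℕ) :
    (J.filter (fun x => (J.filter (fun y => y ⊆ x)).card ≤ w)).card ≤ w := by
  have hinj : Set.InjOn (fun x => (J.filter (fun y => y ⊆ x)).card)
      ((J.filter (fun x => (J.filter (fun y => y ⊆ x)).card ≤ w) : Finset (Finset α)) :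
        Set (Finset α)) := by
    have key : ∀ x ∈ J, ∀ y ∈ J, (J.filter (fun z => z ⊆ x)).card =
        (J.filter (fun z => z ⊆ y)).card → x ⊆ y → x = y := by
      intro x hx y hy hxy hsub
      have h1 : J.filter (fun z => z ⊆ x) ⊆ J.filter (fun z => z ⊆ y) := by
        intro z hz
        have hz' := Finset.mem_filter.1 hz
        exact Finset.mem_filter.2 ⟨hz'.1, hz'.2.trans hsub⟩
      have h2 := Finset.eq_of_subset_of_card_le h1 (le_of_eq hxy.symm)
      have h3 : y ∈ J.filter (fun z => z ⊆ y) := Finset.mem_filter.2 ⟨hy, Finset.Subset.refl _⟩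
      rw [← h2] at h3
      exact Finset.Subset.antisymm hsub (Finset.mem_filter.1 h3).2
    intro x hx y hy hxy
    have hx' := (Finset.mem_filter.1 (Finset.mem_coe.1 hx)).1
    have hy' := (Finset.mem_filter.1 (Finset.mem_coe.1 hy)).1
    rcases hJ x hx' y hy' with h | h
    · exact key x hx' y hy' hxy h
    · exact (key y hy' x hx' hxy.symm h).symm
  rw [← Finset.card_image_of_injOn hinj]
  have hsub : (J.filter (fun x => (J.filter (fun y => y ⊆ x)).card ≤ w)).image
      (fun x => (J.filter (fun y => y ⊆ x)).card) ⊆ Finset.Icc 1 w := by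
    intro n hn
    obtain ⟨x, hx, rfl⟩ := Finset.mem_image.1 hn
    have hx' := Finset.mem_filter.1 hx
    refine Finset.mem_Icc.2 ⟨Finset.card_pos.2 ⟨x, Finset.mem_filter.2 ⟨hx'.1,
      Finset.Subset.refl _⟩⟩, hx'.2⟩
  exact (Finset.card_le_card hsub).trans (by simp)

/-- two chains with new elements that avoid each other give a large antichain of unions -/
theorem grid (F : Finset (Finset α)) (hF : ∀ A ∈ F, ∀ B ∈ F, A ∪ B ∈ F) (w : ℕ)
    (hw : ∀ t ⊆ F, IsAntichain (· ≤ ·) (t : Set (Finset α)) → t.card ≤ w)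
    (s : Finset α → α) (A B : Finset α) (J L : Finset (Finset α)) (hJF : J ⊆ F) (hLF : L ⊆ F)
    (hJ : ∀ x ∈ J, ∀ y ∈ J, x ⊆ y ∨ y ⊆ x) (hL : ∀ x ∈ L, ∀ y ∈ L, x ⊆ y ∨ y ⊆ x)
    (hJs : ∀ x ∈ J, s x ∈ x ∧ ∀ y ∈ J, y ⊂ x → s x ∉ y)
    (hLs : ∀ x ∈ L, s x ∈ x ∧ ∀ y ∈ L, y ⊂ x → s x ∉ y)
    (hJA : ∀ x ∈ J, x ⊆ A ∧ s x ∉ B) (hLB : ∀ x ∈ L, x ⊆ B ∧ s x ∉ A) :
    min J.card L.card ≤ w := by
  by_contra hcon
  have h1 : w < J.card := by omega
  have h2 : w < L.card := by omega
  obtain ⟨a, ha, haa⟩ := chain_enum J hJ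
  obtain ⟨b, hb, hbb⟩ := chain_enum L hL
  have hnot : ∀ p q, p < q → q ≤ w → ¬ (a q ∪ b (w - q) ⊆ a p ∪ b (w - p)) := by
    intro p q hpq hq hsub
    have hqJ : a q ∈ J := ha q (by omega)
    have hs := (hJs _ hqJ).1
    have h3 : s (a q) ∈ a p ∪ b (w - p) := hsub (Finset.mem_union_left _ hs)
    rcases Finset.mem_union.1 h3 with h4 | h4
    · exact (hJs _ hqJ).2 _ (ha p (by omega)) (haa p q hpq (by omega)) h4
    · exact (hJA _ hqJ).2 ((hLB _ (hb (w - p) (by omega))).1 h4)
  have hnot' : ∀ p q, p < q → q ≤ w → ¬ (a p ∪ b (w - p) ⊆ a q ∪ b (w - q)) := by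
    intro p q hpq hq hsub
    have hpL : b (w - p) ∈ L := hb _ (by omega)
    have hs := (hLs _ hpL).1
    have h3 : s (b (w - p)) ∈ a q ∪ b (w - q) := hsub (Finset.mem_union_right _ hs)
    rcases Finset.mem_union.1 h3 with h4 | h4
    · exact (hLB _ hpL).2 ((hJA _ (ha q (by omega))).1 h4)
    · exact (hLs _ hpL).2 _ (hb _ (by omega)) (hbb (w - q) (w - p) (by omega) (by omega)) h4
  set t := (Finset.range (w + 1)).image (fun q => a q ∪ b (w - q)) with ht
  have hinj : Set.InjOn (fun q => a q ∪ b (w - q)) (Finset.range (w + 1) : Set ℕ) := by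
    intro p hp q hq hpq
    have hp' := Finset.mem_range.1 (Finset.mem_coe.1 hp)
    have hq' := Finset.mem_range.1 (Finset.mem_coe.1 hq)
    simp only at hpq
    rcases lt_trichotomy p q with h | h | h
    · exact absurd (le_of_eq hpq) (hnot' p q h (by omega))
    · exact h
    · exact absurd (le_of_eq hpq.symm) (hnot' q p h (by omega))
  have htc : t.card = w + 1 := by
    rw [ht, Finset.card_image_of_injOn hinj, Finset.card_range]
  have htF : t ⊆ F := by
    intro x hx
    obtain ⟨q, hq, rfl⟩ := Finset.mem_image.1 hx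
    have hq' := Finset.mem_range.1 hq
    exact hF _ (hJF (ha q (by omega))) _ (hLF (hb _ (by omega)))
  have hta : IsAntichain (· ≤ ·) (t : Set (Finset α)) := by
    intro x hx y hy hne hle
    obtain ⟨p, hp, rfl⟩ := Finset.mem_image.1 (Finset.mem_coe.1 hx)
    obtain ⟨q, hq, rfl⟩ := Finset.mem_image.1 (Finset.mem_coe.1 hy)
    have hp' := Finset.mem_range.1 hp
    have hq' := Finset.mem_range.1 hq
    rcases lt_trichotomy p q with h | h | h
    · exact hnot' p q h (by omega) hle
    · exact hne (by rw [h])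
    · exact hnot q p h (by omega) hle
  have := hw t htF hta
  omega

/-- there is a set `T` of at most `w` elements such that every element of a member of `F` is
dominated by an element of `T` -/
theorem exists_dom (F : Finset (Finset α)) (hF : ∀ A ∈ F, ∀ B ∈ F, A ∪ B ∈ F)
    (hne : ∃ A ∈ F, A.Nonempty) (w : ℕ)
    (hw : ∀ t ⊆ F, IsAntichain (· ≤ ·) (t : Set (Finset α)) → t.card ≤ w) :
    ∃ T : Finset α, T.card ≤ w ∧ ∀ A ∈ F, ∀ i ∈ A, ∃ t ∈ T, ∀ B ∈ F, i ∈ B → t ∈ B := by
  classical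
  set U := F.biUnion id with hU
  obtain ⟨Dm, hDm⟩ : ∃ Dm : Finset α → Prop, ∀ T, Dm T ↔
      ∀ i ∈ U, ∃ t ∈ T, ∀ B ∈ F, i ∈ B → t ∈ B := ⟨_, fun _ => Iff.rfl⟩
  set DD := U.powerset.filter (fun T => Dm T) with hDD
  have hUD : U ∈ DD := by
    refine Finset.mem_filter.2 ⟨Finset.mem_powerset.2 (Finset.Subset.refl _), (hDm U).2 ?_⟩
    intro i hi
    exact ⟨i, hi, fun B _ h => h⟩
  obtain ⟨T, hT, hTmin⟩ := DD.exists_min_image Finset.card ⟨U, hUD⟩
  have hT' := Finset.mem_filter.1 hT
  have hTU := Finset.mem_powerset.1 hT'.1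
  have hdom := (hDm T).1 hT'.2
  refine ⟨T, ?_, ?_⟩
  swap
  · intro A hA i hi
    exact hdom i (Finset.mem_biUnion.2 ⟨A, hA, hi⟩)
  -- no element of `T` dominates another
  have hnd : ∀ t ∈ T, ∀ r ∈ T, t ≠ r → ∃ B ∈ F, r ∈ B ∧ t ∉ B := by
    intro t ht r hr htr
    by_contra hcon
    push Not at hcon
    have hmem : T.erase r ∈ DD := by
      refine Finset.mem_filter.2 ⟨Finset.mem_powerset.2 ((Finset.erase_subset _ _).trans hTU),
        (hDm _).2 ?_⟩
      intro i hi
      obtain ⟨t', ht', h⟩ := hdom i hi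
      by_cases h' : t' = r
      · subst h'
        exact ⟨t, Finset.mem_erase.2 ⟨htr, ht⟩, fun B hB hiB => hcon B hB (h B hB hiB)⟩
      · exact ⟨t', Finset.mem_erase.2 ⟨h', ht'⟩, h⟩
    have h1 := hTmin _ hmem
    have h2 := Finset.card_erase_lt_of_mem hr
    omega
  obtain ⟨A₀, hA₀, hA₀ne⟩ := hne
  have hw1 : 1 ≤ w := by
    have := hw {A₀} (by simpa using hA₀) (by simp)
    simpa using this
  rcases Nat.lt_or_ge T.card 2 with h2 | h2
  · omega
  -- the largest members avoiding `t`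
  let M : α → Finset α := fun t => (F.filter (fun A => t ∉ A)).biUnion id
  have hMt : ∀ t, t ∉ M t := by
    intro t h
    obtain ⟨A, hA, hA'⟩ := Finset.mem_biUnion.1 h
    exact (Finset.mem_filter.1 hA).2 hA'
  have hsup : ∀ G : Finset (Finset α), G.Nonempty → G ⊆ F → G.biUnion id ∈ F := by
    intro G hG
    induction hG using Finset.Nonempty.cons_induction with
    | singleton a => intro h; simpa using h
    | cons a s ha hs ih =>
      intro h
      rw [Finset.cons_eq_insert] at h ⊢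
      rw [Finset.biUnion_insert]
      exact hF _ (h (Finset.mem_insert_self _ _)) _ (ih fun x hx => h (Finset.mem_insert_of_mem hx))
  have hMF : ∀ t ∈ T, M t ∈ F := by
    intro t ht
    obtain ⟨r, hr, hrt⟩ := Finset.exists_mem_ne (by omega : 1 < T.card) t
    obtain ⟨B, hB, hrB, htB⟩ := hnd t ht r hr (Ne.symm hrt)
    exact hsup _ ⟨B, Finset.mem_filter.2 ⟨hB, htB⟩⟩ (Finset.filter_subset _ _)
  have hMM : ∀ t ∈ T, ∀ r ∈ T, t ≠ r → ¬ M t ≤ M r := by
    intro t ht r hr htr hle
    obtain ⟨B, hB, hrB, htB⟩ := hnd t ht r hr htr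
    have h3 : r ∈ M t := Finset.mem_biUnion.2 ⟨B, Finset.mem_filter.2 ⟨hB, htB⟩, hrB⟩
    exact hMt r (hle h3)
  have hinj : Set.InjOn M (T : Set α) := by
    intro t ht r hr h
    by_contra hne
    exact hMM t ht r hr hne (le_of_eq h)
  rw [← Finset.card_image_of_injOn hinj]
  refine hw _ ?_ ?_
  · intro x hx
    obtain ⟨t, ht, rfl⟩ := Finset.mem_image.1 hx
    exact hMF t ht
  · intro x hx y hy hne hle
    obtain ⟨t, ht, rfl⟩ := Finset.mem_image.1 (Finset.mem_coe.1 hx)
    obtain ⟨r, hr, rfl⟩ := Finset.mem_image.1 (Finset.mem_coe.1 hy)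
    exact hMM t ht r hr (fun h => hne (by rw [h])) hle

/-- The main inequality: a union-closed family whose antichains have at most `w` members. -/
theorem width_main (F : Finset (Finset α)) (hF : ∀ A ∈ F, ∀ B ∈ F, A ∪ B ∈ F)
    (hne : ∃ A ∈ F, A.Nonempty) (w : ℕ)
    (hw : ∀ t ⊆ F, IsAntichain (· ≤ ·) (t : Set (Finset α)) → t.card ≤ w) :
    ∃ x : α, (w + 1) * F.card ≤
      2 * w * (F.filter (fun A => x ∈ A)).card + 2 * w ^ 2 * (w - 1) + (w + 1) := by
  classical
  obtain ⟨A₀, hA₀, hA₀ne⟩ := id hne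
  have hw1 : 1 ≤ w := by
    have := hw {A₀} (by simpa using hA₀) (by simp)
    simpa using this
  obtain ⟨T, hTw, hTdom⟩ := exists_dom F hF hne w hw
  set P := F.filter (fun A => A.Nonempty) with hP
  have hPF : P ⊆ F := Finset.filter_subset _ _
  obtain ⟨c, hcw, hcc⟩ := dilworth P w (fun t ht => hw t (ht.trans hPF))
  -- new elements
  have hs : ∀ A : Finset α, ∃ x : α, A ∈ P → x ∈ A ∧ ∀ B ∈ P, c B = c A → B ⊂ A → x ∉ B := by
    intro A
    obtain ⟨x₀, hx₀⟩ := hA₀ne
    by_cases hA : A ∈ P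
    · by_cases hD : ((P.filter (fun B => c B = c A ∧ B ⊂ A))).Nonempty
      · obtain ⟨D, hD, hDmax⟩ := Finset.exists_max_image _ Finset.card hD
        have hD' := Finset.mem_filter.1 hD
        obtain ⟨x, hx, hxD⟩ := Finset.exists_of_ssubset hD'.2.2
        refine ⟨x, fun _ => ⟨hx, fun B hB hcB hBA hxB => ?_⟩⟩
        have hBm : B ∈ P.filter (fun B => c B = c A ∧ B ⊂ A) :=
          Finset.mem_filter.2 ⟨hB, hcB, hBA⟩
        rcases hcc B hB D hD'.1 (hcB.trans hD'.2.1.symm) with h | h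
        · exact hxD (h hxB)
        · have := Finset.eq_of_subset_of_card_le h (hDmax B hBm)
          rw [← this] at hxB
          exact hxD hxB
      · obtain ⟨x, hx⟩ := (Finset.mem_filter.1 hA).2
        refine ⟨x, fun _ => ⟨hx, fun B hB hcB hBA _ => ?_⟩⟩
        exact hD ⟨B, Finset.mem_filter.2 ⟨hB, hcB, hBA⟩⟩
    · exact ⟨x₀, fun h => absurd h hA⟩
  choose s hs using hs
  -- labels
  have ht : ∀ A : Finset α, ∃ t : α, A ∈ P → t ∈ T ∧ ∀ B ∈ F, s A ∈ B → t ∈ B := by
    intro A
    by_cases hA : A ∈ P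
    · obtain ⟨t, ht, h⟩ := hTdom A (hPF hA) (s A) (hs A hA).1
      exact ⟨t, fun _ => ⟨ht, h⟩⟩
    · exact ⟨s A, fun h => absurd h hA⟩
  choose lab hlab using ht
  have hlabA : ∀ A ∈ P, lab A ∈ A := fun A hA => (hlab A hA).2 A (hPF hA) (hs A hA).1
  -- bad pairs
  let u : Finset α → Finset α → ℕ := fun A B =>
    (P.filter (fun A' => c A' = c A ∧ s A' ∉ B ∧ A' ⊆ A)).card
  have hmin : ∀ A ∈ P, ∀ B ∈ P, s A ∉ B → s B ∉ A → min (u A B) (u B A) ≤ w := by
    intro A hA B hB h1 h2
    apply grid F hF w hw s A B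
    · exact (Finset.filter_subset _ _).trans hPF
    · exact (Finset.filter_subset _ _).trans hPF
    · intro x hx y hy
      have hx' := Finset.mem_filter.1 hx
      have hy' := Finset.mem_filter.1 hy
      exact hcc x hx'.1 y hy'.1 (hx'.2.1.trans hy'.2.1.symm)
    · intro x hx y hy
      have hx' := Finset.mem_filter.1 hx
      have hy' := Finset.mem_filter.1 hy
      exact hcc x hx'.1 y hy'.1 (hx'.2.1.trans hy'.2.1.symm)
    · intro x hx
      have hx' := Finset.mem_filter.1 hx
      refine ⟨(hs x hx'.1).1, fun y hy hyx => ?_⟩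
      have hy' := Finset.mem_filter.1 hy
      exact (hs x hx'.1).2 y hy'.1 (hy'.2.1.trans hx'.2.1.symm) hyx
    · intro x hx
      have hx' := Finset.mem_filter.1 hx
      refine ⟨(hs x hx'.1).1, fun y hy hyx => ?_⟩
      have hy' := Finset.mem_filter.1 hy
      exact (hs x hx'.1).2 y hy'.1 (hy'.2.1.trans hx'.2.1.symm) hyx
    · intro x hx
      have hx' := Finset.mem_filter.1 hx
      exact ⟨hx'.2.2.2, hx'.2.2.1⟩
    · intro x hx
      have hx' := Finset.mem_filter.1 hx
      exact ⟨hx'.2.2.2, hx'.2.2.1⟩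
  have hbadc : ∀ A ∈ P, ∀ B ∈ P, s A ∉ B → s B ∉ A → c A ≠ c B := by
    intro A hA B hB h1 h2 h3
    rcases hcc A hA B hB h3 with h | h
    · exact h1 (h (hs A hA).1)
    · exact h2 (h (hs B hB).1)
  -- few pairs with `u A B ≤ w`
  set LOW := (P ×ˢ P).filter (fun z => c z.1 ≠ c z.2 ∧ s z.1 ∉ z.2 ∧ u z.1 z.2 ≤ w) with hLOW
  have hlow : LOW.card ≤ P.card * ((w - 1) * w) := by
    have hfib : ∀ B ∈ P, (LOW.filter (fun z => z.2 = B)).card ≤ (w - 1) * w := by
      intro B hB
      have hinj : Set.InjOn Prod.fst ((LOW.filter (fun z => z.2 = B) :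
          Finset (Finset α × Finset α)) : Set (Finset α × Finset α)) := by
        intro z hz z' hz' h
        have h1 := (Finset.mem_filter.1 (Finset.mem_coe.1 hz)).2
        have h2 := (Finset.mem_filter.1 (Finset.mem_coe.1 hz')).2
        exact Prod.ext h (h1.trans h2.symm)
      rw [← Finset.card_image_of_injOn hinj]
      have hsub : (LOW.filter (fun z => z.2 = B)).image Prod.fst ⊆
          ((Finset.range w).erase (c B)).biUnion (fun i =>
            ((P.filter (fun A => c A = i ∧ s A ∉ B)).filter (fun x =>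
              ((P.filter (fun A => c A = i ∧ s A ∉ B)).filter (fun y => y ⊆ x)).card ≤ w))) := by
        intro A hA
        obtain ⟨z, hz, rfl⟩ := Finset.mem_image.1 hA
        have h1 := Finset.mem_filter.1 hz
        have h2 := Finset.mem_filter.1 h1.1
        have h3 := Finset.mem_product.1 h2.1
        obtain ⟨h4, h5, h6⟩ := h2.2
        rw [h1.2] at h4 h5 h6
        refine Finset.mem_biUnion.2 ⟨c z.1, Finset.mem_erase.2 ⟨h4,
          Finset.mem_range.2 (hcw _ h3.1)⟩, ?_⟩
        refine Finset.mem_filter.2 ⟨Finset.mem_filter.2 ⟨h3.1, rfl, h5⟩, ?_⟩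
        refine le_trans (le_of_eq ?_) h6
        rw [Finset.filter_filter]
        congr 1
        ext x
        simp only [Finset.mem_filter, and_assoc]
      refine (Finset.card_le_card hsub).trans (Finset.card_biUnion_le.trans ?_)
      have hcard : ((Finset.range w).erase (c B)).card = w - 1 := by
        rw [Finset.card_erase_of_mem (Finset.mem_range.2 (hcw B hB)), Finset.card_range]
      rw [← hcard, ← smul_eq_mul, ← Finset.sum_const]
      refine Finset.sum_le_sum fun i _ => ?_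
      apply chain_low
      intro x hx y hy
      have hx' := Finset.mem_filter.1 hx
      have hy' := Finset.mem_filter.1 hy
      exact hcc x hx'.1 y hy'.1 (hx'.2.1.trans hy'.2.1.symm)
    have hmaps : ∀ z ∈ LOW, z.2 ∈ P := fun z hz =>
      (Finset.mem_product.1 (Finset.mem_filter.1 hz).1).2
    rw [Finset.card_eq_sum_card_fiberwise hmaps]
    calc ∑ B ∈ P, (LOW.filter (fun z => z.2 = B)).card ≤ ∑ _B ∈ P, (w - 1) * w :=
          Finset.sum_le_sum hfib
      _ = _ := by rw [Finset.sum_const, smul_eq_mul]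
  set BAD := (P ×ˢ P).filter (fun z => lab z.1 ∉ z.2 ∧ lab z.2 ∉ z.1) with hBAD
  have hbad : BAD.card ≤ 2 * (P.card * ((w - 1) * w)) := by
    have hsub : BAD ⊆ LOW ∪ LOW.image Prod.swap := by
      intro z hz
      have h1 := Finset.mem_filter.1 hz
      have h2 := Finset.mem_product.1 h1.1
      have h3 : s z.1 ∉ z.2 := fun h => h1.2.1 ((hlab z.1 h2.1).2 z.2 (hPF h2.2) h)
      have h4 : s z.2 ∉ z.1 := fun h => h1.2.2 ((hlab z.2 h2.2).2 z.1 (hPF h2.1) h)
      have h5 := hbadc z.1 h2.1 z.2 h2.2 h3 h4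
      rcases min_le_iff.1 (hmin z.1 h2.1 z.2 h2.2 h3 h4) with h6 | h6
      · exact Finset.mem_union_left _ (Finset.mem_filter.2 ⟨h1.1, h5, h3, h6⟩)
      · refine Finset.mem_union_right _ (Finset.mem_image.2 ⟨z.swap, ?_, Prod.swap_swap z⟩)
        exact Finset.mem_filter.2 ⟨Finset.mem_product.2 ⟨h2.2, h2.1⟩, h5.symm, h4, h6⟩
    refine (Finset.card_le_card hsub).trans ((Finset.card_union_le _ _).trans ?_)
    have := Finset.card_image_le (s := LOW) (f := Prod.swap)
    omega
  -- equal labels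
  set EQ := (P ×ˢ P).filter (fun z => lab z.1 = lab z.2) with hEQ
  have heq : P.card ^ 2 ≤ w * EQ.card := by
    have h1 : P.card = ∑ t ∈ T, (P.filter (fun A => lab A = t)).card :=
      Finset.card_eq_sum_card_fiberwise (fun A hA => (hlab A hA).1)
    have h2 : EQ.card = ∑ t ∈ T, (P.filter (fun A => lab A = t)).card ^ 2 := by
      have hm : ∀ z ∈ EQ, lab z.1 ∈ T := fun z hz =>
        (hlab z.1 (Finset.mem_product.1 (Finset.mem_filter.1 hz).1).1).1
      rw [Finset.card_eq_sum_card_fiberwise hm]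
      refine Finset.sum_congr rfl fun t _ => ?_
      rw [pow_two, ← Finset.card_product]
      congr 1
      ext z
      simp only [hEQ, Finset.mem_filter, Finset.mem_product]
      constructor
      · rintro ⟨⟨⟨h1, h2⟩, h3⟩, h4⟩
        exact ⟨⟨h1, h4⟩, h2, h3 ▸ h4⟩
      · rintro ⟨⟨h1, h2⟩, h3, h4⟩
        exact ⟨⟨⟨h1, h3⟩, h2.trans h4.symm⟩, h2⟩
    have h3 := sq_sum_le_card_mul_sum_sq (s := T)
      (f := fun t => (P.filter (fun A => lab A = t)).card)
    rw [h1, h2]
    exact h3.trans (Nat.mul_le_mul_right _ hTw)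
  -- double counting
  set GA := (P ×ˢ P).filter (fun z => lab z.1 ∈ z.2) with hGA
  set GB := (P ×ˢ P).filter (fun z => lab z.2 ∈ z.1) with hGB
  have hGAB : GA.card = GB.card := by
    apply Finset.card_bij (fun z _ => z.swap)
    · intro z hz
      have h1 := Finset.mem_filter.1 hz
      have h2 := Finset.mem_product.1 h1.1
      exact Finset.mem_filter.2 ⟨Finset.mem_product.2 ⟨h2.2, h2.1⟩, h1.2⟩
    · intro z _ z' _ h
      exact Prod.swap_injective h
    · intro z hz
      have h1 := Finset.mem_filter.1 hz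
      have h2 := Finset.mem_product.1 h1.1
      exact ⟨z.swap, Finset.mem_filter.2 ⟨Finset.mem_product.2 ⟨h2.2, h2.1⟩, h1.2⟩,
        Prod.swap_swap z⟩
  have hunion : (GA ∪ GB).card + BAD.card = P.card ^ 2 := by
    have h1 : GA ∪ GB = (P ×ˢ P).filter (fun z => ¬ (lab z.1 ∉ z.2 ∧ lab z.2 ∉ z.1)) := by
      ext z
      simp only [hGA, hGB, Finset.mem_union, Finset.mem_filter]
      tauto
    rw [h1, add_comm, hBAD, Finset.card_filter_add_card_filter_not, Finset.card_product, pow_two]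
  have hinter : EQ.card ≤ (GA ∩ GB).card := by
    apply Finset.card_le_card
    intro z hz
    have h1 := Finset.mem_filter.1 hz
    have h2 := Finset.mem_product.1 h1.1
    refine Finset.mem_inter.2 ⟨Finset.mem_filter.2 ⟨h1.1, ?_⟩, Finset.mem_filter.2 ⟨h1.1, ?_⟩⟩
    · rw [h1.2]; exact hlabA _ h2.2
    · rw [← h1.2]; exact hlabA _ h2.1
  have hsum : (GA ∪ GB).card + (GA ∩ GB).card = 2 * GA.card := by
    rw [Finset.card_union_add_card_inter, hGAB]; ring
  -- averaging
  have hPne : P.Nonempty := ⟨A₀, Finset.mem_filter.2 ⟨hA₀, hA₀ne⟩⟩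
  obtain ⟨A, hA, hAmax⟩ := P.exists_max_image (fun A => (P.filter (fun B => lab A ∈ B)).card) hPne
  have hGAle : GA.card ≤ P.card * (P.filter (fun B => lab A ∈ B)).card := by
    have hm : ∀ z ∈ GA, z.1 ∈ P := fun z hz =>
      (Finset.mem_product.1 (Finset.mem_filter.1 hz).1).1
    rw [Finset.card_eq_sum_card_fiberwise hm, ← smul_eq_mul, ← Finset.sum_const]
    refine Finset.sum_le_sum fun A' hA' => le_trans ?_ (hAmax A' hA')
    have hinj : Set.InjOn Prod.snd ((GA.filter (fun z => z.1 = A') :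
        Finset (Finset α × Finset α)) : Set (Finset α × Finset α)) := by
      intro z hz z' hz' h
      have h1 := (Finset.mem_filter.1 (Finset.mem_coe.1 hz)).2
      have h2 := (Finset.mem_filter.1 (Finset.mem_coe.1 hz')).2
      exact Prod.ext (h1.trans h2.symm) h
    rw [← Finset.card_image_of_injOn hinj]
    apply Finset.card_le_card
    intro B hB
    obtain ⟨z, hz, rfl⟩ := Finset.mem_image.1 hB
    have h1 := Finset.mem_filter.1 hz
    have h2 := Finset.mem_filter.1 h1.1
    refine Finset.mem_filter.2 ⟨(Finset.mem_product.1 h2.1).2, ?_⟩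
    rw [← h1.2]; exact h2.2
  refine ⟨lab A, ?_⟩
  have hfreq : (P.filter (fun B => lab A ∈ B)).card ≤ (F.filter (fun B => lab A ∈ B)).card :=
    Finset.card_le_card (Finset.filter_subset_filter _ hPF)
  have hPcard : F.card ≤ P.card + 1 := by
    have h1 : F ⊆ insert ∅ P := by
      intro B hB
      rcases B.eq_empty_or_nonempty with rfl | h
      · exact Finset.mem_insert_self _ _
      · exact Finset.mem_insert_of_mem (Finset.mem_filter.2 ⟨hB, h⟩)
    exact (Finset.card_le_card h1).trans (Finset.card_insert_le _ _)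
  have hPpos : 0 < P.card := Finset.card_pos.2 hPne
  set n := P.card with hn
  set f := (P.filter (fun B => lab A ∈ B)).card with hf
  obtain ⟨w', rfl⟩ : ∃ w', w = w' + 1 := ⟨w - 1, by omega⟩
  simp only [Nat.add_sub_cancel] at hbad ⊢
  -- `w * (n^2 - bad) + n^2 ≤ 2 w n f`
  have h1 : (w' + 1) * n ^ 2 + n ^ 2 ≤ 2 * (w' + 1) * (n * f) + (w' + 1) * (2 * (n * (w' * (w' + 1)))) := by
    have e1 : (w' + 1) * (n ^ 2) = (w' + 1) * (GA ∪ GB).card + (w' + 1) * BAD.card := by
      rw [← hunion]; ring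
    have e2 : (w' + 1) * (GA ∪ GB).card + (w' + 1) * (GA ∩ GB).card =
        2 * (w' + 1) * GA.card := by
      rw [← Nat.mul_add, hsum]; ring
    have e3 : (w' + 1) * EQ.card ≤ (w' + 1) * (GA ∩ GB).card := Nat.mul_le_mul_left _ hinter
    have e4 : (w' + 1) * BAD.card ≤ (w' + 1) * (2 * (n * (w' * (w' + 1)))) :=
      Nat.mul_le_mul_left _ hbad
    have e5 : 2 * (w' + 1) * GA.card ≤ 2 * (w' + 1) * (n * f) := Nat.mul_le_mul_left _ hGAle
    omega
  have h2 : (w' + 2) * n ≤ 2 * (w' + 1) * f + (w' + 1) * (2 * (w' * (w' + 1))) := by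
    have h3 : n * ((w' + 2) * n) ≤ n * (2 * (w' + 1) * f + (w' + 1) * (2 * (w' * (w' + 1)))) := by
      calc n * ((w' + 2) * n) = (w' + 1) * n ^ 2 + n ^ 2 := by ring
        _ ≤ _ := h1
        _ = _ := by ring
    exact le_of_mul_le_mul_left h3 hPpos
  calc (w' + 1 + 1) * F.card ≤ (w' + 1 + 1) * (n + 1) := Nat.mul_le_mul_left _ hPcard
    _ = (w' + 2) * n + (w' + 1 + 1) := by ring
    _ ≤ 2 * (w' + 1) * f + (w' + 1) * (2 * (w' * (w' + 1))) + (w' + 1 + 1) := by omega
    _ ≤ 2 * (w' + 1) * (F.filter (fun A_1 => lab A ∈ A_1)).card +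
        (w' + 1) * (2 * (w' * (w' + 1))) + (w' + 1 + 1) := by
        have := Nat.mul_le_mul_left (2 * (w' + 1)) hfreq
        omega
    _ = _ := by ring

end Pool.Agent.H302UC
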